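import Pool.Agent.X297.MR.Hilb

set_option autoImplicit false

/-!
# MP_a0085b_an, Q2: averaged multiplicative recurrence along `(n² + n, m²)` holds

Proof.  Let `f = 1_A ∈ L²(μ)` and let `U_k f = f ∘ T_k`.  The element `g` of minimal norm of the
closed convex hull of `{U_{k²} f}` is invariant under all `U_{k²}`; as the sums over `m ≤ N` of
the nonnegative numbers `⟨U_{n²+n} f, U_{m²} f⟩` dominate those over the multiples of `k`, the
averages over `m` are at least a constant times `⟨U_{n²+n} f, g⟩ = ⟨U_{n+1} g, U_n g⟩`.  If `S` is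
a finite set of positive integers whose differences `y - x > 0` divide `x`, and `c` is divisible
by all these differences, then `⟨U_{ct+x} g, U_{ct+y} g⟩ = ⟨U_n g, U_{n+1} g⟩` for
`n = (ct+x)/(y-x)`, and for `|S| > 1/μ(A)²` the sum over the pairs is bounded below.
-/

open MeasureTheory Filter
open scoped RealInnerProductSpace

namespace Pool.Agent.Results.MP_a0085b_an.QuadraticPairRecurrence

/-- `(X, μ, T)` is a multiplicative measure preserving system: `T_n : X → X` preserves `μ` for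
every `n ≥ 1`, `T_1 = id` and `T_{nm} = T_n ∘ T_m` for `n, m ≥ 1` (`T 0` is arbitrary). -/
structure MulSystem {X : Type*} [MeasurableSpace X] (μ : Measure X) (T : ℕ → X → X) : Prop where
  mp : ∀ n, 1 ≤ n → MeasurePreserving (T n) μ μ
  one : T 1 = id
  mul : ∀ n m, 1 ≤ n → 1 ≤ m → T (n * m) = T n ∘ T m

/-- The average over `n, m ∈ [N]` of `μ(T_{n²+n}⁻¹ A ∩ T_{m²}⁻¹ A)`. -/
noncomputable def average {X : Type*} [MeasurableSpace X] (μ : Measure X) (T : ℕ → X → X)
    (A : Set X) (N : ℕ) : ℝ :=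
  1 / (N : ℝ) ^ 2 * ∑ n ∈ Finset.Icc 1 N, ∑ m ∈ Finset.Icc 1 N,
    μ.real ((T (n ^ 2 + n))⁻¹' A ∩ (T (m ^ 2))⁻¹' A)

section
variable {X : Type*} [MeasurableSpace X] {μ : Measure X} [IsProbabilityMeasure μ]
  {T : ℕ → X → X}

/-- The Koopman operators. -/
noncomputable def koop (hT : MulSystem μ T) (n : ℕ) : Lp ℝ 2 μ →ₗᵢ[ℝ] Lp ℝ 2 μ :=
  if h : 1 ≤ n then Lp.compMeasurePreservingₗᵢ ℝ (T n) (hT.mp n h) else LinearIsometry.id

theorem koop_ind (hT : MulSystem μ T) {n : ℕ} (hn : 1 ≤ n) {B : Set X} (hB : MeasurableSet B) :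
    koop hT n (indicatorConstLp 2 hB (measure_ne_top μ B) (1 : ℝ)) =
      indicatorConstLp 2 ((hT.mp n hn).measurable hB) (measure_ne_top μ _) (1 : ℝ) := by
  unfold koop
  rw [dif_pos hn]
  exact Lp.indicatorConstLp_compMeasurePreserving hB (measure_ne_top μ B) (1 : ℝ) (hT.mp n hn)

theorem inner_ind {B C : Set X} (hB : MeasurableSet B) (hC : MeasurableSet C) :
    (⟪indicatorConstLp 2 hB (measure_ne_top μ B) (1 : ℝ),
      indicatorConstLp 2 hC (measure_ne_top μ C) (1 : ℝ)⟫ : ℝ) = μ.real (B ∩ C) :=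
  L2.inner_indicatorConstLp_one_indicatorConstLp_one hB hC (measure_ne_top μ B)
    (measure_ne_top μ C)

theorem sys (hT : MulSystem μ T) {A : Set X} (hA : MeasurableSet A) (hμ : 0 < μ A) :
    Pool.Agent.X297.MR.Sys (koop hT) (indicatorConstLp 2 hA (measure_ne_top μ A) (1 : ℝ))
      (indicatorConstLp 2 MeasurableSet.univ (measure_ne_top μ Set.univ) (1 : ℝ)) := by
  have hnorm : ∀ {B : Set X} (hB : MeasurableSet B),
      ‖indicatorConstLp 2 hB (measure_ne_top μ B) (1 : ℝ)‖ ^ 2 = μ.real B := by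
    intro B hB
    rw [← real_inner_self_eq_norm_sq, inner_ind, Set.inter_self]
  refine ⟨?_, ?_, ?_, ?_, ?_, ?_, ?_⟩
  · intro n m hn hm v
    have hnm : 1 ≤ n * m := Nat.mul_pos hn hm
    have h1 : T (n * m) = T m ∘ T n := by rw [mul_comm, hT.mul m n hm hn]
    unfold koop
    rw [dif_pos hn, dif_pos hm, dif_pos hnm]
    show Lp.compMeasurePreserving (T (n * m)) (hT.mp (n * m) hnm) v =
      Lp.compMeasurePreserving (T n) (hT.mp n hn) (Lp.compMeasurePreserving (T m) (hT.mp m hm) v)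
    rw [← Lp.compMeasurePreserving_comp_apply]
    congr 1
    simp only [h1]
  · intro v
    unfold koop
    rw [dif_pos le_rfl]
    show Lp.compMeasurePreserving (T 1) (hT.mp 1 le_rfl) v = v
    have h1 := hT.one
    have : Lp.compMeasurePreserving (T 1) (hT.mp 1 le_rfl) v =
        Lp.compMeasurePreserving id (MeasurePreserving.id μ) v := by
      congr 1
      simp only [h1]
    rw [this]
    exact Lp.compMeasurePreserving_id_apply v
  · have h1 := hnorm (B := Set.univ) MeasurableSet.univ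
    rw [probReal_univ] at h1
    have h2 : ‖indicatorConstLp 2 MeasurableSet.univ (measure_ne_top μ Set.univ) (1 : ℝ)‖ ^ 2 =
        1 ^ 2 := by rw [h1]; ring
    exact (pow_left_inj₀ (norm_nonneg _) zero_le_one two_ne_zero).mp h2
  · intro n hn
    rw [koop_ind hT hn]
    congr 1
  · have h1 := hnorm hA
    have h2 : μ.real A ≤ 1 := measureReal_le_one
    rw [← h1] at h2
    exact (pow_le_one_iff_of_nonneg (norm_nonneg _) two_ne_zero).mp h2
  · intro n m hn hm
    rw [koop_ind hT hn, koop_ind hT hm, inner_ind]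
    exact measureReal_nonneg
  · rw [inner_ind, Set.inter_univ]
    exact ENNReal.toReal_pos hμ.ne' (measure_ne_top μ A)

theorem average_le_one (N : ℕ) (A : Set X) : average μ T A N ≤ 1 := by
  unfold average
  have h1 : ∑ n ∈ Finset.Icc 1 N, ∑ m ∈ Finset.Icc 1 N,
      μ.real ((T (n ^ 2 + n))⁻¹' A ∩ (T (m ^ 2))⁻¹' A) ≤ (N : ℝ) ^ 2 := by
    calc _ ≤ ∑ n ∈ Finset.Icc 1 N, ∑ m ∈ Finset.Icc 1 N, (1 : ℝ) :=
          Finset.sum_le_sum (fun n _ => Finset.sum_le_sum (fun m _ => measureReal_le_one))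
      _ = _ := by simp; ring
  rcases Nat.eq_zero_or_pos N with h0 | h0
  · subst h0; simp
  · have h2 : (0 : ℝ) < (N : ℝ) ^ 2 := by positivity
    rw [one_div, inv_mul_le_iff₀ h2, mul_one]
    exact h1

end

/-- Q2 has a positive answer: for every multiplicative measure preserving system and every
measurable set `A` of positive measure, the lower limit of the averages of
`μ(T_{n²+n}⁻¹ A ∩ T_{m²}⁻¹ A)` over `n, m ≤ N` is positive. -/
theorem result {X : Type*} [MeasurableSpace X] (μ : Measure X) [IsProbabilityMeasure μ]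
    (T : ℕ → X → X) (hT : MulSystem μ T) (A : Set X) (hA : MeasurableSet A) (hμ : 0 < μ A) :
    0 < liminf (fun N : ℕ => average μ T A N) atTop := by
  obtain ⟨c, hc, N0, hN0⟩ := Pool.Agent.X297.MR.main (sys hT hA hμ)
  have h1 : ∀ᶠ N : ℕ in atTop, c ≤ average μ T A N := by
    filter_upwards [eventually_ge_atTop N0, eventually_ge_atTop 1] with N hN hN1
    have h2 := hN0 N hN
    have h3 : ∑ n ∈ Finset.Icc 1 N, ∑ m ∈ Finset.Icc 1 N,
        (⟪koop hT (n * (n + 1)) (indicatorConstLp 2 hA (measure_ne_top μ A) (1 : ℝ)),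
          koop hT (m ^ 2) (indicatorConstLp 2 hA (measure_ne_top μ A) (1 : ℝ))⟫ : ℝ) =
        ∑ n ∈ Finset.Icc 1 N, ∑ m ∈ Finset.Icc 1 N,
          μ.real ((T (n ^ 2 + n))⁻¹' A ∩ (T (m ^ 2))⁻¹' A) := by
      apply Finset.sum_congr rfl
      intro n hn
      apply Finset.sum_congr rfl
      intro m hm
      have hn1 := (Finset.mem_Icc.mp hn).1
      have hm1 := (Finset.mem_Icc.mp hm).1
      have e : n * (n + 1) = n ^ 2 + n := by ring
      rw [koop_ind hT (Nat.mul_pos hn1 (by omega)), koop_ind hT (Nat.one_le_pow _ _ hm1),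
        inner_ind, e]
    rw [h3] at h2
    unfold average
    have h4 : (0 : ℝ) < (N : ℝ) ^ 2 := by positivity
    rw [one_div, le_inv_mul_iff₀ h4]
    linarith
  have h5 : IsCoboundedUnder (· ≥ ·) atTop (fun N : ℕ => average μ T A N) := by
    apply IsBoundedUnder.isCoboundedUnder_ge
    exact ⟨1, eventually_map.mpr (Eventually.of_forall (fun N => average_le_one N A))⟩
  exact lt_of_lt_of_le hc (le_liminf_of_le h5 h1)

end Pool.Agent.Results.MP_a0085b_an.QuadraticPairRecurrence
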